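import Pool.Agent.Helper539_BiInv.Defs

set_option autoImplicit false

/-!
# The conjugation-invariant norm given by costs
-/

namespace Pool.Agent.Helper539_BiInv

variable {G : Type*} [Group G]

/-- The possible costs of an element: `M`, or the total cost of a factorisation. -/
def costs (R : G → ℝ → Prop) (M : ℝ) (x : G) : Set ℝ :=
  {r | r = M ∨ ∃ l : List (G × ℝ), (∀ p ∈ l, R p.1 p.2) ∧ (l.map Prod.fst).prod = x ∧
    r = (l.map Prod.snd).sum}

/-- The norm given by costs. -/
noncomputable def costLen (R : G → ℝ → Prop) (M : ℝ) (x : G) : ℝ := sInf (costs R M x)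

/-- The data of a conjugation-invariant symmetric cost relation, with costs at least `δ`. -/
structure Good (R : G → ℝ → Prop) (δ M : ℝ) : Prop where
  pos : 0 < δ
  posM : 0 < M
  le : ∀ x r, R x r → δ ≤ r
  inv : ∀ x r, R x r → R x⁻¹ r
  conj : ∀ g x r, R x r → R (g * x * g⁻¹) r

theorem sum_nonneg_of {R : G → ℝ → Prop} {δ M : ℝ} (h : Good R δ M) (l : List (G × ℝ))
    (hl : ∀ p ∈ l, R p.1 p.2) : (l.length : ℝ) * δ ≤ (l.map Prod.snd).sum := by
  induction l with
  | nil => simp
  | cons p l ih =>
    have h1 := ih fun q hq => hl q (List.mem_cons_of_mem _ hq)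
    have h2 := h.le _ _ (hl p List.mem_cons_self)
    rw [List.map_cons, List.sum_cons, List.length_cons]
    push_cast
    linarith

namespace Good

variable {R : G → ℝ → Prop} {δ M : ℝ} (h : Good R δ M)
include h

theorem costs_nonneg (x : G) : ∀ r ∈ costs R M x, 0 ≤ r := by
  rintro r (rfl | ⟨l, hl, -, rfl⟩)
  · exact h.posM.le
  · have := sum_nonneg_of h l hl
    exact le_trans (by have := h.pos; positivity) this

theorem bdd (x : G) : BddBelow (costs R M x) := ⟨0, h.costs_nonneg x⟩

omit h in
theorem nonempty (x : G) : (costs R M x).Nonempty := ⟨M, Or.inl rfl⟩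

theorem len_le {x : G} {r : ℝ} (hr : r ∈ costs R M x) : costLen R M x ≤ r :=
  csInf_le (h.bdd x) hr

theorem len_nonneg (x : G) : 0 ≤ costLen R M x := le_csInf (nonempty x) (h.costs_nonneg x)

theorem len_le_max (x : G) : costLen R M x ≤ M := h.len_le (Or.inl rfl)

theorem len_le_cost {x : G} {r : ℝ} (hr : R x r) : costLen R M x ≤ r :=
  h.len_le (Or.inr ⟨[(x, r)], by simpa using hr, by simp, by simp⟩)

theorem len_one : costLen R M (1 : G) = 0 :=
  le_antisymm (h.len_le (Or.inr ⟨[], by simp, by simp, by simp⟩)) (h.len_nonneg 1)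

omit h in
theorem exists_lt {x : G} {t : ℝ} (ht : costLen R M x < t) :
    M < t ∨ ∃ l : List (G × ℝ), (∀ p ∈ l, R p.1 p.2) ∧ (l.map Prod.fst).prod = x ∧
      (l.map Prod.snd).sum < t := by
  obtain ⟨r, hr, hrt⟩ := exists_lt_of_csInf_lt (nonempty x) ht
  rcases hr with rfl | ⟨l, hl, hx, rfl⟩
  · exact Or.inl hrt
  · exact Or.inr ⟨l, hl, hx, hrt⟩

theorem len_eq_zero_iff (x : G) : costLen R M x = 0 ↔ x = 1 := by
  constructor
  · intro h0
    by_contra hx
    have hlt : costLen R M x < min M δ := by rw [h0]; exact lt_min h.posM h.pos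
    rcases exists_lt hlt with h1 | ⟨l, hl, hlx, h1⟩
    · exact absurd h1 (not_lt.2 (min_le_left _ _))
    · have h2 := sum_nonneg_of h l hl
      rcases l with _ | ⟨p, l⟩
      · exact hx (by simpa using hlx.symm)
      · have h3 : (1 : ℝ) ≤ ((p :: l).length : ℝ) := by simp
        have h4 : δ ≤ ((p :: l).length : ℝ) * δ := by nlinarith [h.pos]
        exact absurd (lt_of_le_of_lt (h4.trans h2) h1) (not_lt.2 (min_le_right _ _))
  · rintro rfl
    exact h.len_one

theorem len_mul (x y : G) : costLen R M (x * y) ≤ costLen R M x + costLen R M y := by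
  have key : ∀ r ∈ costs R M x, ∀ s ∈ costs R M y, costLen R M (x * y) ≤ r + s := by
    intro r hr s hs
    have hr0 := h.costs_nonneg x r hr
    have hs0 := h.costs_nonneg y s hs
    rcases hr with rfl | ⟨l, hl, hlx, rfl⟩
    · exact (h.len_le_max _).trans (by linarith)
    rcases hs with rfl | ⟨l', hl', hly, rfl⟩
    · exact (h.len_le_max _).trans (by linarith)
    refine h.len_le (Or.inr ⟨l ++ l', ?_, ?_, ?_⟩)
    · intro p hp
      rcases List.mem_append.1 hp with hp | hp
      · exact hl p hp
      · exact hl' p hp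
    · rw [List.map_append, List.prod_append, hlx, hly]
    · rw [List.map_append, List.sum_append]
  have h1 : ∀ s ∈ costs R M y, costLen R M (x * y) - s ≤ costLen R M x := by
    intro s hs
    refine le_csInf (nonempty x) fun r hr => ?_
    linarith [key r hr s hs]
  have h2 : costLen R M (x * y) - costLen R M x ≤ costLen R M y := by
    refine le_csInf (nonempty y) fun s hs => ?_
    linarith [h1 s hs]
  linarith

theorem len_inv (x : G) : costLen R M x⁻¹ = costLen R M x := by
  have key : ∀ x : G, costLen R M x⁻¹ ≤ costLen R M x := by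
    intro x
    refine le_csInf (nonempty x) fun r hr => ?_
    rcases hr with rfl | ⟨l, hl, hlx, rfl⟩
    · exact h.len_le_max _
    refine h.len_le (Or.inr ⟨(l.map fun p => (p.1⁻¹, p.2)).reverse, ?_, ?_, ?_⟩)
    · intro p hp
      simp only [List.mem_reverse, List.mem_map] at hp
      obtain ⟨q, hq, rfl⟩ := hp
      exact h.inv _ _ (hl q hq)
    · rw [← hlx, List.prod_inv_reverse, List.map_reverse, List.map_map, List.map_map]
      rfl
    · rw [List.map_reverse, List.map_map, List.sum_reverse]
      rfl
  refine le_antisymm (key x) ?_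
  simpa using key x⁻¹

theorem len_conj (g x : G) : costLen R M (g * x * g⁻¹) = costLen R M x := by
  have key : ∀ g x : G, costLen R M (g * x * g⁻¹) ≤ costLen R M x := by
    intro g x
    refine le_csInf (nonempty x) fun r hr => ?_
    rcases hr with rfl | ⟨l, hl, hlx, rfl⟩
    · exact h.len_le_max _
    refine h.len_le (Or.inr ⟨l.map fun p => (g * p.1 * g⁻¹, p.2), ?_, ?_, ?_⟩)
    · intro p hp
      simp only [List.mem_map] at hp
      obtain ⟨q, hq, rfl⟩ := hp
      exact h.conj _ _ _ (hl q hq)
    · rw [← hlx]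
      clear hl hlx
      induction l with
      | nil => simp
      | cons p l ih => 
        simp only [List.map_cons, List.prod_cons, ih]
        group
    · rw [List.map_map]
      rfl
  refine le_antisymm (key g x) ?_
  have := key g⁻¹ (g * x * g⁻¹)
  simpa [mul_assoc] using this

/-- The bi-invariant metric given by costs. -/
theorem isBiInvMetric : IsBiInvMetric fun x y : G => costLen R M (x * y⁻¹) :=
  isBiInvMetric_of_len _ h.len_eq_zero_iff h.len_inv h.len_mul h.len_conj

end Good

/-- Lists of bounded length with entries in a finite set. -/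
theorem finite_lists {α : Type*} (s : Finset α) (K : ℕ) :
    {m : List α | m.length ≤ K ∧ ∀ b ∈ m, b ∈ s}.Finite := by
  classical
  refine ((List.finite_length_le (↥s) K).image (List.map Subtype.val)).subset ?_
  rintro m ⟨hm, hs⟩
  refine ⟨m.attach.map fun b => ⟨b.1, hs b.1 b.2⟩, ?_, ?_⟩
  · simpa using hm
  · rw [List.map_map]
    conv_rhs => rw [← List.attach_map_subtype_val m]
    rfl

end Pool.Agent.Helper539_BiInv
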