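import Pool.Agent.Helper539_BiInv.Cost
import Pool.Agent.Helper436.SM.RF1

set_option autoImplicit false

/-!
# The criterion for finite approximability of a single metric
-/

namespace Pool.Agent.Helper539_BiInv

section Ball

variable {n : ℕ}

/-- The ball of radius `R` in the free group. -/
theorem ball_finite (n R : ℕ) : {x : FreeGroup (Fin n) | x.norm ≤ R}.Finite :=
  (List.finite_length_le (Fin n × Bool) R).preimage FreeGroup.toWord_injective.injOn

/-- The ball of radius `R` in the free group as a finite set. -/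
noncomputable def ball (n R : ℕ) : Finset (FreeGroup (Fin n)) := (ball_finite n R).toFinset

theorem mem_ball {n R : ℕ} {x : FreeGroup (Fin n)} : x ∈ ball n R ↔ x.norm ≤ R := by
  simp [ball]

theorem mk_mem_ball {n R : ℕ} {L : List (Fin n × Bool)} (h : L.length ≤ R) :
    FreeGroup.mk L ∈ ball n R := mem_ball.2 (FreeGroup.norm_mk_le.trans h)

/-- A map which is multiplicative on the ball of radius `R ≥ 1` agrees there with a
homomorphism. -/
theorem eq_lift {F : Type*} [Group F] {R : ℕ} (hR : 1 ≤ R) (ι : FreeGroup (Fin n) → F)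
    (hι : ∀ a ∈ ball n R, ∀ b ∈ ball n R, a * b ∈ ball n R → ι (a * b) = ι a * ι b) :
    ∀ x ∈ ball n R, ι x = FreeGroup.lift (fun i => ι (FreeGroup.of i)) x := by
  have h1 : ι 1 = 1 := by
    have h0 : (1 : FreeGroup (Fin n)) ∈ ball n R := mem_ball.2 (by simp)
    have := hι 1 h0 1 h0 (by simpa using h0)
    simpa using this
  have hlet : ∀ p : Fin n × Bool, ι (FreeGroup.mk [p]) =
      FreeGroup.lift (fun i => ι (FreeGroup.of i)) (FreeGroup.mk [p]) := by
    rintro ⟨i, b⟩
    have hof : FreeGroup.of i ∈ ball n R := mk_mem_ball (L := [(i, true)]) (by simpa using hR)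
    cases b with
    | true => 
      change ι (FreeGroup.of i) = FreeGroup.lift _ (FreeGroup.of i)
      simp
    | false =>
      have hinv : FreeGroup.mk [(i, false)] = (FreeGroup.of i)⁻¹ := by
        simp [FreeGroup.of, FreeGroup.inv_mk, FreeGroup.invRev]
      have hof' : FreeGroup.mk [(i, false)] ∈ ball n R := mk_mem_ball (by simpa using hR)
      rw [hinv] at hof' ⊢
      have := hι _ hof _ hof' (mem_ball.2 (by simp))
      rw [mul_inv_cancel, h1] at this
      rw [map_inv, FreeGroup.lift_apply_of]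
      exact (inv_eq_of_mul_eq_one_right this.symm).symm
  have key : ∀ L : List (Fin n × Bool), L.length ≤ R →
      ι (FreeGroup.mk L) = FreeGroup.lift (fun i => ι (FreeGroup.of i)) (FreeGroup.mk L) := by
    intro L
    induction L with
    | nil =>
      intro _
      change ι 1 = FreeGroup.lift _ 1
      rw [h1, map_one]
    | cons p L ih =>
      intro hL
      rw [List.length_cons] at hL
      have hmul : FreeGroup.mk (p :: L) = FreeGroup.mk [p] * FreeGroup.mk L := by
        rw [FreeGroup.mul_mk, List.singleton_append]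
      rw [hmul, hι _ (mk_mem_ball (by simpa using hR)) _ (mk_mem_ball (by omega))
        (by rw [← hmul]; exact mk_mem_ball (by simpa using hL)), map_mul, hlet, ih (by omega)]
  intro x hx
  have := key x.toWord (mem_ball.1 hx)
  rwa [FreeGroup.mk_toWord] at this

end Ball

theorem forall₂_map_isConj {H F : Type*} [Group H] [Group F] (φ : H →* F) {l c : List H}
    (h : List.Forall₂ IsConj l c) : List.Forall₂ IsConj (l.map φ) (c.map φ) := by
  induction h with
  | nil => exact List.Forall₂.nil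
  | cons h _ ih =>
    exact List.Forall₂.cons (MonoidHom.map_isConj φ h) ih

theorem len_sum_forall₂ {F : Type*} [Group F] {d : F → F → ℝ} (hd : IsBiInvMetric d)
    {l c : List F} (h : List.Forall₂ IsConj l c) :
    (c.map fun x => d x 1).sum = (l.map fun x => d x 1).sum := by
  induction h with
  | nil => rfl
  | cons h _ ih => rw [List.map_cons, List.map_cons, List.sum_cons, List.sum_cons, ih,
      hd.len_isConj h]

/-- The first half of the criterion. -/
theorem le_of_approx {n : ℕ} {ρ : FreeGroup (Fin n) → FreeGroup (Fin n) → ℝ}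
    (hap : FinitelyApproximable ρ) (l : List (FreeGroup (Fin n)))
    (a : FreeGroup (Fin n)) (hcl : InClosure l a) :
    ρ a 1 ≤ (l.map fun b => ρ b 1).sum := by
  classical
  refine le_of_forall_pos_le_add fun η hη => ?_
  obtain ⟨R, hR1, hRa, hRl⟩ : ∃ R : ℕ, 1 ≤ R ∧ a.norm ≤ R ∧ ∀ b ∈ l, b.norm ≤ R := by
    refine ⟨1 + a.norm + (l.map FreeGroup.norm).sum, by omega, by omega, fun b hb => ?_⟩
    have := List.single_le_sum (by simp) _ (List.mem_map_of_mem (f := FreeGroup.norm) hb)
    omega
  obtain ⟨ε, hε0, hεη⟩ : ∃ ε : ℝ, 0 < ε ∧ ((l.length : ℝ) + 1) * ε = η :=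
    ⟨η / (l.length + 1), by positivity, by field_simp⟩
  obtain ⟨F, _, _, d, hd, ι, -, hmul, hiso⟩ := hap (ball n R) ε hε0
  set φ : FreeGroup (Fin n) →* F := FreeGroup.lift (fun i => ι (FreeGroup.of i)) with hφ
  have hιφ : ∀ x ∈ ball n R, ι x = φ x := eq_lift hR1 ι hmul
  have h1b : (1 : FreeGroup (Fin n)) ∈ ball n R := mem_ball.2 (by simp)
  have hest : ∀ x ∈ ball n R, |d (φ x) 1 - ρ x 1| ≤ ε := by
    intro x hx
    have := hiso x hx 1 h1b
    rwa [hιφ x hx, hιφ 1 h1b, map_one] at this
  have hfin : φ.ker.FiniteIndex := inferInstance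
  obtain ⟨c, hc, hmem⟩ := hcl φ.ker inferInstance hfin
  have hφa : φ a = (c.map φ).prod := by
    rw [MonoidHom.mem_ker, map_mul, map_inv, map_list_prod] at hmem
    exact inv_mul_eq_one.1 hmem
  have h2 : d (φ a) 1 ≤ ((l.map φ).map fun x => d x 1).sum := by
    rw [hφa, ← len_sum_forall₂ hd (forall₂_map_isConj φ hc)]
    exact hd.len_prod _
  have h3 : ((l.map φ).map fun x => d x 1).sum ≤ (l.map fun b => ρ b 1).sum + l.length * ε := by
    clear hcl hc hmem hφa h2 hεη hε0
    induction l with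
    | nil => simp
    | cons b l ih =>
      have hb := hest b (mem_ball.2 (hRl b List.mem_cons_self))
      have h4 := ih (fun b hb => hRl b (List.mem_cons_of_mem _ hb))
      have h5 := (abs_le.1 hb).2
      simp only [List.map_cons, List.sum_cons, List.length_cons]
      push_cast
      linarith
  have h4 := (abs_le.1 (hest a (mem_ball.2 hRa))).1
  linarith

/-- Free groups are residually finite. -/
theorem exists_normal_notMem {n : ℕ} (w : FreeGroup (Fin n)) (hw : w ≠ 1) :
    ∃ N : Subgroup (FreeGroup (Fin n)), N.Normal ∧ N.FiniteIndex ∧ w ∉ N := by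
  obtain ⟨m, e, he⟩ := Pool.Agent.Helper436.SM.free_rf w hw
  exact ⟨(FreeGroup.lift e).ker, inferInstance, inferInstance, fun h => he h⟩

/-- The second half of the criterion, for residually finite groups. -/
theorem approx_of_le {H : Type} [Group H]
    (hrf : ∀ w : H, w ≠ 1 → ∃ N : Subgroup H, N.Normal ∧ N.FiniteIndex ∧ w ∉ N)
    {ρ : H → H → ℝ} (hρ : IsBiInvMetric ρ)
    (hle : ∀ (l : List H) (a : H), InClosure l a → ρ a 1 ≤ (l.map fun b => ρ b 1).sum) :
    FinitelyApproximable ρ := by
  classical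
  intro A ε hε
  let S : Finset H := (A ×ˢ A).image fun p => p.1 * p.2⁻¹
  have hS : ∀ {a b : H}, a ∈ A → b ∈ A → a * b⁻¹ ∈ S := fun {a b} ha hb =>
    Finset.mem_image.2 ⟨(a, b), Finset.mem_product.2 ⟨ha, hb⟩, rfl⟩
  have hSinv : ∀ x ∈ S, x⁻¹ ∈ S := by
    intro x hx
    obtain ⟨⟨a, b⟩, hab, rfl⟩ := Finset.mem_image.1 hx
    have hab' := Finset.mem_product.1 hab
    have := hS hab'.2 hab'.1
    simpa using this
  let M : ℝ := (∑ x ∈ S, ρ x 1) + 1
  have hM0 : 0 < M := by
    have : 0 ≤ ∑ x ∈ S, ρ x 1 := Finset.sum_nonneg fun x _ => hρ.nonneg x 1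
    positivity
  have hMS : ∀ x ∈ S, ρ x 1 < M := by
    intro x hx
    have := Finset.single_le_sum (f := fun x => ρ x 1) (fun x _ => hρ.nonneg x 1) hx
    exact lt_of_le_of_lt this (lt_add_one _)
  obtain ⟨K, hK⟩ := exists_nat_gt (M / ε)
  have hK' : M < K * ε := (div_lt_iff₀ hε).1 hK
  -- the separating subgroups
  have hfin : {p : List H × H | (p.1.length ≤ K ∧ ∀ b ∈ p.1, b ∈ S) ∧ p.2 ∈ S}.Finite :=
    (finite_lists S K).prod S.finite_toSet
  have hsep : ∀ p : List H × H, ∃ N : Subgroup H, N.Normal ∧ N.FiniteIndex ∧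
      ((p.1.map fun b => ρ b 1).sum < ρ p.2 1 →
        ∀ c : List H, List.Forall₂ IsConj p.1 c → p.2⁻¹ * c.prod ∉ N) := by
    intro p
    by_cases hp : (p.1.map fun b => ρ b 1).sum < ρ p.2 1
    · have h1 : ¬ InClosure p.1 p.2 := fun h => absurd (hle _ _ h) (not_le.2 hp)
      unfold InClosure at h1
      push Not at h1
      obtain ⟨N, hN, hN', h2⟩ := h1
      exact ⟨N, hN, hN', fun _ c hc => h2 c hc⟩
    · exact ⟨⊤, inferInstance, inferInstance, fun h => absurd h hp⟩
  choose Nf hNn hNi hNs using hsep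
  have hrf' : ∀ w : H, ∃ N : Subgroup H, N.Normal ∧ N.FiniteIndex ∧ (w ≠ 1 → w ∉ N) := by
    intro w
    by_cases hw : w = 1
    · exact ⟨⊤, inferInstance, inferInstance, fun h => absurd hw h⟩
    · obtain ⟨N, h1, h2, h3⟩ := hrf w hw
      exact ⟨N, h1, h2, fun _ => h3⟩
  choose Nr hRn hRi hRs using hrf'
  let N : Subgroup H := (⨅ p : hfin.toFinset, Nf p.1) ⊓ ⨅ w : S, Nr w.1
  haveI hN1 : (⨅ p : hfin.toFinset, Nf p.1).Normal := Subgroup.normal_iInf_normal fun p => hNn p.1
  haveI hN2 : (⨅ w : S, Nr w.1).Normal := Subgroup.normal_iInf_normal fun p => hRn p.1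
  haveI hNN : N.Normal := Subgroup.normal_inf_normal _ _
  haveI hF1 : (⨅ p : hfin.toFinset, Nf p.1).FiniteIndex :=
    Subgroup.finiteIndex_iInf fun p => hNi p.1
  haveI hF2 : (⨅ w : S, Nr w.1).FiniteIndex := Subgroup.finiteIndex_iInf fun p => hRi p.1
  haveI hNF : N.FiniteIndex := inferInstanceAs (_ ⊓ _ : Subgroup H).FiniteIndex
  have hNf : ∀ p : List H × H, p.1.length ≤ K → (∀ b ∈ p.1, b ∈ S) → p.2 ∈ S → N ≤ Nf p := by
    intro p h1 h2 h3
    exact inf_le_left.trans (iInf_le (fun p : hfin.toFinset => Nf p.1)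
      ⟨p, hfin.mem_toFinset.2 ⟨⟨h1, h2⟩, h3⟩⟩)
  have hNr : ∀ w ∈ S, N ≤ Nr w := fun w hw =>
    inf_le_right.trans (iInf_le (fun w : S => Nr w.1) ⟨w, hw⟩)
  let q : H →* H ⧸ N := QuotientGroup.mk' N
  have hq : Function.Surjective q := QuotientGroup.mk'_surjective N
  let R : H ⧸ N → ℝ → Prop := fun x r => ∃ s ∈ S, IsConj (q s) x ∧ r = ρ s 1 + ε
  have hgood : Good R ε M := by
    refine ⟨hε, hM0, ?_, ?_, ?_⟩
    · rintro x r ⟨s, -, -, rfl⟩
      have := hρ.nonneg s 1
      linarith
    · rintro x r ⟨s, hs, hsx, rfl⟩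
      refine ⟨s⁻¹, hSinv s hs, ?_, by rw [hρ.len_inv]⟩
      obtain ⟨g, rfl⟩ := isConj_iff.1 hsx
      exact isConj_iff.2 ⟨g, by rw [map_inv]; group⟩
    · rintro g x r ⟨s, hs, hsx, rfl⟩
      exact ⟨s, hs, hsx.trans (isConj_iff.2 ⟨g, rfl⟩), rfl⟩
  haveI : Finite (H ⧸ N) := inferInstance
  refine ⟨H ⧸ N, inferInstance, Fintype.ofFinite _, _, hgood.isBiInvMetric, q, ?_, ?_, ?_⟩
  · intro a ha b hb hab
    by_contra hne
    have h1 : a * b⁻¹ ≠ 1 := fun h => hne (mul_inv_eq_one.1 h)
    have h2 : a * b⁻¹ ∈ N := by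
      rw [← QuotientGroup.eq_one_iff]
      change q (a * b⁻¹) = 1
      rw [map_mul, map_inv, hab, mul_inv_cancel]
    exact hRs _ h1 (hNr _ (hS ha hb) h2)
  · intro a _ b _ _
    exact map_mul q a b
  · intro a ha b hb
    have hs := hS ha hb
    have hqs : q a * (q b)⁻¹ = q (a * b⁻¹) := by rw [map_mul, map_inv]
    change |costLen R M (q a * (q b)⁻¹) - ρ a b| ≤ ε
    rw [hqs, hρ.eq_len a b]
    generalize a * b⁻¹ = s at hs
    rw [abs_le]
    constructor
    · by_contra hlt
      push Not at hlt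
      have hlt' : costLen R M (q s) < ρ s 1 - ε := by linarith
      rcases Good.exists_lt hlt' with h1 | ⟨l, hl, hlx, hsum⟩
      · linarith [hMS s hs]
      -- extract the list of elements of `S`
      have key : ∀ l : List ((H ⧸ N) × ℝ), (∀ p ∈ l, R p.1 p.2) →
          ∃ m c : List H, (∀ b ∈ m, b ∈ S) ∧ List.Forall₂ IsConj m c ∧
            q c.prod = (l.map Prod.fst).prod ∧ m.length = l.length ∧
            (l.map Prod.snd).sum = (m.map fun b => ρ b 1).sum + m.length * ε := by
        intro l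
        induction l with
        | nil => intro _; exact ⟨[], [], by simp, List.Forall₂.nil, by simp, by simp, by simp⟩
        | cons p l ih =>
          intro hl
          obtain ⟨m, c, h1, h2, h3, h4, h5⟩ := ih fun x hx => hl x (List.mem_cons_of_mem _ hx)
          obtain ⟨b, hb, hbx, hr⟩ := hl p List.mem_cons_self
          obtain ⟨g, hg⟩ := isConj_iff.1 hbx
          obtain ⟨g', rfl⟩ := hq g
          refine ⟨b :: m, (g' * b * g'⁻¹) :: c, ?_, List.Forall₂.cons (isConj_iff.2 ⟨g', rfl⟩) h2,
            ?_, by simp [h4], ?_⟩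
          · intro x hx
            rcases List.mem_cons.1 hx with rfl | hx
            · exact hb
            · exact h1 x hx
          · rw [List.prod_cons, map_mul, h3, List.map_cons, List.prod_cons, ← hg]
            simp
          · rw [List.map_cons, List.sum_cons, h5, hr, List.map_cons, List.sum_cons,
              List.length_cons]
            push_cast
            ring
      obtain ⟨m, c, h1, h2, h3, h4, h5⟩ := key l hl
      have hlen : m.length ≤ K := by
        have h6 : (m.length : ℝ) * ε ≤ (l.map Prod.snd).sum := by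
          rw [h5]
          have : 0 ≤ (m.map fun b => ρ b 1).sum := List.sum_nonneg (by
            intro x hx
            obtain ⟨b, -, rfl⟩ := List.mem_map.1 hx
            exact hρ.nonneg b 1)
          linarith
        have h7 : (m.length : ℝ) * ε < K * ε := by linarith [hMS s hs]
        have h8 : (m.length : ℝ) < K := lt_of_mul_lt_mul_right h7 hε.le
        exact_mod_cast h8.le
      have hlt2 : (m.map fun b => ρ b 1).sum < ρ s 1 := by
        have : 0 ≤ (m.length : ℝ) * ε := by positivity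
        linarith
      refine hNs (m, s) hlt2 c h2 (hNf (m, s) hlen h1 hs ?_)
      rw [← QuotientGroup.eq_one_iff]
      change q (s⁻¹ * c.prod) = 1
      rw [map_mul, map_inv, h3, hlx, inv_mul_cancel]
    · have : costLen R M (q s) ≤ ρ s 1 + ε :=
        hgood.len_le_cost ⟨s, hs, IsConj.refl _, rfl⟩
      linarith

/-- **Criterion.** A bi-invariant metric on a free group of finite rank is finitely approximable
if and only if `ρ(a, 1) ≤ ρ(b₁, 1) + ⋯ + ρ(bₖ, 1)` whenever `a` is in the profinite closure of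
`[b₁]⋯[bₖ]`. -/
theorem approx_iff {n : ℕ} {ρ : FreeGroup (Fin n) → FreeGroup (Fin n) → ℝ}
    (hρ : IsBiInvMetric ρ) : FinitelyApproximable ρ ↔
      ∀ (l : List (FreeGroup (Fin n))) (a : FreeGroup (Fin n)), InClosure l a →
        ρ a 1 ≤ (l.map fun b => ρ b 1).sum :=
  ⟨fun h l a hcl => le_of_approx h l a hcl,
    fun h => approx_of_le (fun w hw => exists_normal_notMem w hw) hρ h⟩

end Pool.Agent.Helper539_BiInv
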