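import Mathlib

set_option autoImplicit false

/-!
# Finite approximation of bi-invariant metrics: definitions
-/

namespace Pool.Agent.Helper539_BiInv

/-- `d` is a bi-invariant metric on the group `G`. -/
structure IsBiInvMetric {G : Type*} [Group G] (d : G → G → ℝ) : Prop where
  eq_zero_iff : ∀ x y, d x y = 0 ↔ x = y
  symm : ∀ x y, d x y = d y x
  triangle : ∀ x y z, d x z ≤ d x y + d y z
  left_inv : ∀ g x y, d (g * x) (g * y) = d x y
  right_inv : ∀ g x y, d (x * g) (y * g) = d x y

/-- The metric `ρ` on the group `H` is finitely approximable: for every finite `A ⊆ H` and `ε > 0`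
there are a finite group with a bi-invariant metric and a partial monomorphism from `A` to it
which is an `ε`-isometry. -/
def FinitelyApproximable {H : Type} [Group H] (ρ : H → H → ℝ) : Prop :=
  ∀ (A : Finset H) (ε : ℝ), 0 < ε →
    ∃ (F : Type) (_ : Group F) (_ : Fintype F) (d : F → F → ℝ), IsBiInvMetric d ∧
      ∃ ι : H → F, Set.InjOn ι (A : Set H) ∧
        (∀ a ∈ A, ∀ b ∈ A, a * b ∈ A → ι (a * b) = ι a * ι b) ∧
        (∀ a ∈ A, ∀ b ∈ A, |d (ι a) (ι b) - ρ a b| ≤ ε)

/-- The element `a` lies in the closure, for the profinite topology of `H`, of the product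
`[b₁]⋯[bₖ]` of the conjugacy classes of the entries of the list `l = [b₁, …, bₖ]`: modulo every
normal subgroup of finite index, `a` is a product of conjugates of `b₁, …, bₖ` in this order. -/
def InClosure {H : Type} [Group H] (l : List H) (a : H) : Prop :=
  ∀ N : Subgroup H, N.Normal → N.FiniteIndex →
    ∃ c : List H, List.Forall₂ IsConj l c ∧ a⁻¹ * c.prod ∈ N

namespace IsBiInvMetric

variable {G : Type*} [Group G] {d : G → G → ℝ} (h : IsBiInvMetric d)
include h

theorem self (x : G) : d x x = 0 := (h.eq_zero_iff x x).2 rfl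

theorem nonneg (x y : G) : 0 ≤ d x y := by
  have h1 := h.triangle x y x
  rw [h.self, h.symm y x] at h1
  linarith

theorem eq_len (x y : G) : d x y = d (x * y⁻¹) 1 := by
  have := h.right_inv y⁻¹ x y
  rw [mul_inv_cancel] at this
  exact this.symm

theorem len_inv (x : G) : d x⁻¹ 1 = d x 1 := by
  have := h.left_inv x x⁻¹ 1
  rw [mul_inv_cancel, mul_one] at this
  rw [← this, h.symm]

theorem len_mul (x y : G) : d (x * y) 1 ≤ d x 1 + d y 1 := by
  have h1 := h.triangle (x * y) y 1
  have h2 := h.right_inv y x 1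
  rw [one_mul] at h2
  rw [h2] at h1
  exact h1

theorem len_conj (g x : G) : d (g * x * g⁻¹) 1 = d x 1 := by
  have h1 := h.right_inv g (g * x * g⁻¹) 1
  rw [inv_mul_cancel_right, one_mul] at h1
  rw [← h1]
  have h2 := h.left_inv g x 1
  rw [mul_one] at h2
  exact h2

theorem len_isConj {x y : G} (hxy : IsConj x y) : d y 1 = d x 1 := by
  obtain ⟨g, rfl⟩ := isConj_iff.1 hxy
  exact h.len_conj g x

theorem len_pos {x : G} (hx : x ≠ 1) : 0 < d x 1 :=
  lt_of_le_of_ne (h.nonneg x 1) fun h0 => hx ((h.eq_zero_iff x 1).1 h0.symm)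

theorem len_prod (l : List G) : d l.prod 1 ≤ (l.map fun x => d x 1).sum := by
  induction l with
  | nil => simp [h.self]
  | cons x l ih =>
    rw [List.prod_cons, List.map_cons, List.sum_cons]
    exact (h.len_mul x l.prod).trans (by linarith)

theorem mul_mul (x y x' y' : G) : d (x * y) (x' * y') ≤ d x x' + d y y' := by
  have h1 := h.triangle (x * y) (x' * y) (x' * y')
  rw [h.right_inv, h.left_inv] at h1
  exact h1

end IsBiInvMetric

/-- A conjugation-invariant norm gives a bi-invariant metric. -/
theorem isBiInvMetric_of_len {G : Type*} [Group G] (len : G → ℝ) (h0 : ∀ x, len x = 0 ↔ x = 1)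
    (hi : ∀ x, len x⁻¹ = len x) (hm : ∀ x y, len (x * y) ≤ len x + len y)
    (hc : ∀ g x, len (g * x * g⁻¹) = len x) : IsBiInvMetric fun x y => len (x * y⁻¹) where
  eq_zero_iff x y := by rw [h0, mul_inv_eq_one]
  symm x y := by rw [← hi (x * y⁻¹)]; simp
  triangle x y z := by
    have := hm (x * y⁻¹) (y * z⁻¹)
    simpa [mul_assoc] using this
  left_inv g x y := by
    rw [← hc g (x * y⁻¹)]
    congr 1
    group
  right_inv g x y := by
    congr 1
    group

end Pool.Agent.Helper539_BiInv
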